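import Pool.Agent.H109R3.TC.Lower

/-!
The degree of the halting problem, a noncomputable c.e. degree, is the degree of topological
categoricity of the countable discrete space.
-/

namespace Pool.Agent.Results.MP_55a818_lc.HaltingDegree

open Nat.Partrec (Code)
open Pool.Agent.Helper583.TT (CMS)
open Pool.Agent.Helper583.TC (Red)
open Pool.Agent.H109R3.TC

/-- the characteristic function of a set -/
noncomputable def chi (A : ℕ → Prop) (n : ℕ) : ℕ :=
  open Classical in if A n then 1 else 0

/-- There is a noncomputable c.e. set `A` whose Turing degree is the degree of topological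
categoricity of the computable Polish space `ℕ` (discrete topology): between any two presentations
there is a homeomorphism which is `A`-computable together with its inverse, and `A` is recursive in
every `a` such that between any two presentations there is an `a`-computable homeomorphism. -/
theorem result : ∃ A : ℕ → Prop, REPred A ∧ ¬ ComputablePred A ∧
    (∃ M : CMS, Nonempty (M.Y ≃ₜ ℕ)) ∧ CatBoth ℕ (chi A) ∧
    ∀ a : ℕ → ℕ, Cat ℕ a → Red (chi A) a := by
  refine ⟨fun z => (Code.eval (Denumerable.ofNat Code z.unpair.1) z.unpair.2).Dom,
    Pool.Agent.Helper743.K_re, ?_, ⟨Sd, sd_homeo⟩, catBoth, fun a ha => lower ha⟩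
  intro hp
  refine ComputablePred.halting_problem 0 ?_
  have h1 : Computable fun c : Code => Nat.pair (Encodable.encode c) 0 :=
    Primrec₂.natPair.to_comp.comp Computable.encode (Computable.const 0)
  refine ComputablePred.computable_of_manyOneReducible ⟨_, h1, fun c => ?_⟩ hp
  simp only [Nat.unpair_pair, Denumerable.ofNat_encode]

end Pool.Agent.Results.MP_55a818_lc.HaltingDegree
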