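import Pool.Agent.H109R3.LA.Final1

/-!
A noncomputable c.e. degree which is not the degree of topological categoricity of any computable
Polish space.
-/

namespace Pool.Agent.Results.MP_55a818_lc.NotEveryCE

open Pool.Agent.Helper583.TT (CMS)
open Pool.Agent.Helper583.TC (Red)
open Pool.Agent.H109R3.TC

/-- the characteristic function of a set -/
noncomputable def chi (A : ℕ → Prop) (n : ℕ) : ℕ :=
  open Classical in if A n then 1 else 0

/-- There is a noncomputable c.e. set `A` such that no infinite computable Polish space is
`A`-categorical, and the Turing degree of `A` is not the degree of topological categoricity of any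
computable Polish space, finite or infinite. The last clause says the same with the variant of
categoricity in which the homeomorphism and its inverse are both required to be computable
relative to the oracle. -/
theorem result : ∃ A : ℕ → Prop, REPred A ∧ ¬ ComputablePred A ∧
    (∀ (X : Type) [TopologicalSpace X] [Infinite X], (∃ M : CMS, Nonempty (M.Y ≃ₜ X)) →
      ¬ Cat X (chi A)) ∧
    (∀ (X : Type) [TopologicalSpace X], (∃ M : CMS, Nonempty (M.Y ≃ₜ X)) →
      ¬ (Cat X (chi A) ∧ ∀ a : ℕ → ℕ, Cat X a → Red (chi A) a)) ∧
    (∀ (X : Type) [TopologicalSpace X], (∃ M : CMS, Nonempty (M.Y ≃ₜ X)) →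
      ¬ (CatBoth X (chi A) ∧ ∀ a : ℕ → ℕ, CatBoth X a → Red (chi A) a)) := by
  obtain ⟨A, hA⟩ := Pool.Agent.H109R3.LA.exists_lowCE
  obtain ⟨h1, h2, h3, h4, h5⟩ := Pool.Agent.H109R3.LA.final1 hA
  have hchi : chi (fun n => A n = true) = Pool.Agent.H109R3.LA.ch A := by
    funext n
    unfold chi Pool.Agent.H109R3.LA.ch
    by_cases h : A n = true
    · rw [if_pos h, h]; rfl
    · rw [if_neg h]
      rw [Bool.not_eq_true] at h
      rw [h]; rfl
  refine ⟨fun n => A n = true, h1, h2, ?_, ?_, ?_⟩
  · intro X _ _ hX
    rw [hchi]
    exact h3 X hX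
  · intro X _ hX
    rw [hchi]
    exact h4 X hX
  · intro X _ hX
    rw [hchi]
    exact h5 X hX

end Pool.Agent.Results.MP_55a818_lc.NotEveryCE
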